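import Pool.Agent.W555.GL.Stm

set_option autoImplicit false

namespace Pool.Agent.W346.GL
open Cardinal Pool.Agent.W555.GL

section
variable {L : Type} [CompleteLattice L] {rk : L → ℕ} {r : ℕ}

theorem rk_mono (h : RkData L rk r) {x y : L} (hxy : x ≤ y) : rk x ≤ rk y := by
  rcases hxy.lt_or_eq with h1 | h1
  · exact (h.mono x y h1).le
  · rw [h1]

theorem eq_of_rk (h : RkData L rk r) {x y : L} (hxy : x ≤ y) (hr : rk y ≤ rk x) : x = y := by
  rcases hxy.lt_or_eq with h1 | h1
  · exact absurd (h.mono x y h1) (not_lt.2 hr)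
  · exact h1

theorem rk_atom (h : RkData L rk r) {a : L} (ha : IsAtom a) : rk a = 1 := by
  have h1 : ¬ a ≤ (⊥ : L) := fun hh => ha.1 (le_bot_iff.1 hh)
  have h2 := h.atom ⊥ a ha h1
  rw [bot_sup_eq, h.bot] at h2
  exact h2

theorem rk_cov (h : RkData L rk r) {G D : L} (hGD : G ⋖ D) : rk D = rk G + 1 := by
  obtain ⟨a, ha, haD, haG⟩ := h.gen G D hGD.lt
  have h1 : G < G ⊔ a := by
    refine lt_of_le_of_ne le_sup_left fun hh => haG ?_
    rw [hh]; exact le_sup_right
  have h2 : G ⊔ a ≤ D := sup_le hGD.le haD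
  have h3 : G ⊔ a = D := by
    rcases h2.lt_or_eq with h4 | h4
    · exact absurd h4 (hGD.2 h1)
    · exact h4
  rw [← h3]
  exact h.atom G a ha haG

end

theorem chain (hb : StBad) : StChain := by
  intro L _ rk r hR κ F hκ hpts
  suffices H : ∀ (n : ℕ) (G : L), rk F - rk G = n → G ≤ F → rk G + 2 ≤ rk F → κ ≤ #(covs F G) →
      ∀ S : Set L, #S < κ →
        ∃ c : Set L, IsFlag rk (rk G + 1) (rk F) c ∧ (∀ x ∈ c, G ≤ x ∧ x ≤ F) ∧ Disjoint c S from
    fun G => H _ G rfl
  intro n
  induction n with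
  | zero => intro G hn _ h2; omega
  | succ n ih =>
    intro G hn hGF h2 hcov S hS
    -- the remaining covers are infinite in number
    have hrem : κ ≤ #(covs F G \ S : Set L) := by
      by_contra hc
      push Not at hc
      have h3 : #(covs F G) ≤ #(covs F G \ S : Set L) + #S := by
        refine (Cardinal.mk_le_mk_of_subset (t := (covs F G \ S) ∪ S) ?_).trans
          (Cardinal.mk_union_le _ _)
        intro x hx
        by_cases hxS : x ∈ S
        · exact Or.inr hxS
        · exact Or.inl ⟨hx, hxS⟩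
      have h4 := Cardinal.add_lt_of_lt hκ hc hS
      exact absurd (hcov.trans h3) (not_le.2 h4)
    have hinf : (covs F G \ S).Infinite := by
      rw [← Set.infinite_coe_iff, Cardinal.infinite_iff]
      exact hκ.trans hrem
    have hcd : ∀ D ∈ covs F G, rk D = rk G + 1 ∧ G ≤ D ∧ D ≤ F := fun D hD =>
      ⟨rk_cov hR hD.1, hD.1.le, hD.2⟩
    by_cases hcase : rk G + 2 = rk F
    · obtain ⟨D, hD⟩ := hinf.nonempty
      obtain ⟨hD1, hD2, hD3⟩ := hcd D hD.1
      refine ⟨{D}, ⟨?_, ?_, ?_⟩, ?_, ?_⟩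
      · exact Set.Subsingleton.isChain Set.subsingleton_singleton
      · intro x hx
        rw [Set.mem_singleton_iff.1 hx, hD1]
        omega
      · intro i hi1 hi2
        exact ⟨D, rfl, by omega⟩
      · intro x hx
        rw [Set.mem_singleton_iff.1 hx]
        exact ⟨hD2, hD3⟩
      · exact Set.disjoint_singleton_left.2 hD.2
    · have h3 : rk G + 3 ≤ rk F := by omega
      have hgood : ∃ D ∈ covs F G \ S, κ ≤ #(covs F D) := by
        obtain ⟨D1, hD1⟩ := hinf.nonempty
        obtain ⟨D2, hD2, hne⟩ := hinf.nontrivial.exists_ne D1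
        by_contra hc
        push Not at hc
        exact absurd hcov (not_le.2 (hb L rk r hR κ F hκ hpts G D1 D2 hD1.1 hD2.1 hne.symm h3
          (hc D1 hD1) (hc D2 hD2)))
      obtain ⟨D, hD, hDκ⟩ := hgood
      obtain ⟨hD1, hD2, hD3⟩ := hcd D hD.1
      obtain ⟨c, hc1, hc2, hc3⟩ := ih D (by omega) hD3 (by omega) hDκ S hS
      refine ⟨insert D c, ⟨?_, ?_, ?_⟩, ?_, ?_⟩
      · refine hc1.1.insert fun x hx _ => Or.inl (hc2 x hx).1
      · intro x hx
        rcases Set.mem_insert_iff.1 hx with hx | hx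
        · rw [hx, hD1]; omega
        · have := hc1.2.1 x hx
          omega
      · intro i hi1 hi2
        by_cases hi : i = rk G + 1
        · exact ⟨D, Set.mem_insert _ _, by rw [hi, hD1]⟩
        · obtain ⟨x, hx, hxi⟩ := hc1.2.2 i (by omega) hi2
          exact ⟨x, Set.mem_insert_of_mem _ hx, hxi⟩
      · intro x hx
        rcases Set.mem_insert_iff.1 hx with hx | hx
        · rw [hx]; exact ⟨hD2, hD3⟩
        · exact ⟨hD2.trans (hc2 x hx).1, (hc2 x hx).2⟩
      · exact Set.disjoint_insert_left.2 ⟨hD.2, hc3⟩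

end Pool.Agent.W346.GL
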