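import Pool.Agent.W346.GL.Chain

set_option autoImplicit false

namespace Pool.Agent.W346.GL
open Cardinal Pool.Agent.W555.GL

theorem out (hp : StPair) (hta : StTowA) (htb : StTowB) : StOut := by
  intro L _ rk r hR κ l Z hκ hl hC hpl f hf hfl hfZ S hS
  have hpZ := hp L rk r hR l Z hC
  -- a complement through `f`
  obtain ⟨Y, hY, hfY⟩ := (htb L rk r hR l).2 f hf hfl
  have hpY := hp L rk r hR l Y hY
  obtain ⟨T, hT, hT1, hTt⟩ := hta L rk r hR f Y hfY
  rw [rk_atom hR hf] at hT1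
  have hrY : rk Y + 2 = r := by have := hY.2; omega
  have hTY : ∀ s, s ≤ rk Y → T s ≤ Y := fun s hs => by
    conv_rhs => rw [← hTt]
    exact hT.2 s (rk Y) hs le_rfl
  have hfT : ∀ s, 1 ≤ s → s ≤ rk Y → f ≤ T s := fun s h1 h2 => by
    rw [← hT1]; exact hT.2 1 s h1 h2
  have hinf : ∀ e ∈ pts l, ∀ s, s ≤ rk Y → (e ⊔ T s) ⊓ l = e := fun e he s hs =>
    (hpY e (T s) he.2 (hTY s hs)).2.1
  have hrk : ∀ e ∈ pts l, ∀ s, s ≤ rk Y → rk (e ⊔ T s) = s + 1 := fun e he s hs => by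
    rw [(hpY e (T s) he.2 (hTY s hs)).1, rk_atom hR he.1, hT.1 s hs]; omega
  -- the bad points
  let B : Set L := {e | e ∈ pts l ∧ ∃ s, s ≤ rk Y ∧ e ⊔ T s ∈ S}
  let B' : Set L := {e | e ∈ pts l ∧ f ≤ e ⊔ Z}
  have hB : #B < κ := by
    refine lt_of_le_of_lt ?_ hS
    have h1 : B ⊆ (fun x => x ⊓ l) '' S := by
      rintro e ⟨he, s, hs, hsS⟩
      exact ⟨e ⊔ T s, hsS, hinf e he s hs⟩
    exact (Cardinal.mk_le_mk_of_subset h1).trans Cardinal.mk_image_le
  have hB' : B'.Subsingleton := by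
    rintro e ⟨he, hfe⟩ e' ⟨he', hfe'⟩
    have key : ∀ e ∈ pts l, f ≤ e ⊔ Z → Z ⊔ f = e ⊔ Z := by
      intro e he hfe
      refine eq_of_rk hR (sup_le le_sup_right hfe) ?_
      rw [hR.atom Z f hf hfZ, (hpZ e Z he.2 le_rfl).1, rk_atom hR he.1]
      omega
    have h1 := key e he hfe
    have h2 := key e' he' hfe'
    have h3 : e ⊔ Z = e' ⊔ Z := h1.symm.trans h2
    rw [← (hpZ e Z he.2 le_rfl).2.1, ← (hpZ e' Z he'.2 le_rfl).2.1, h3]
  have hBB : #(B ∪ B' : Set L) < κ := by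
    refine lt_of_le_of_lt (Cardinal.mk_union_le _ _) (Cardinal.add_lt_of_lt hκ hB ?_)
    refine lt_of_le_of_lt (Cardinal.mk_le_one_iff_set_subsingleton.2 hB') ?_
    exact lt_of_lt_of_le Cardinal.one_lt_aleph0 hκ
  obtain ⟨e, he, heB⟩ : ∃ e ∈ pts l, e ∉ B ∪ B' := by
    by_contra hc
    push Not at hc
    have h1 : #(pts l) ≤ #(B ∪ B' : Set L) := Cardinal.mk_le_mk_of_subset hc
    rw [hpl] at h1
    exact absurd h1 (not_le.2 hBB)
  have hgood1 : ∀ s, s ≤ rk Y → e ⊔ T s ∉ S := fun s hs h => heB (Or.inl ⟨he, s, hs, h⟩)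
  have hgood2 : ¬ f ≤ e ⊔ Z := fun h => heB (Or.inr ⟨he, h⟩)
  refine ⟨{x | ∃ s, 1 ≤ s ∧ s ≤ rk Y ∧ x = e ⊔ T s}, ⟨?_, ?_, ?_⟩, ?_, ?_, ?_⟩
  · rintro _ ⟨s, hs1, hs2, rfl⟩ _ ⟨t, ht1, ht2, rfl⟩ _
    rcases le_total s t with h | h
    · exact Or.inl (sup_le_sup_left (hT.2 s t h ht2) e)
    · exact Or.inr (sup_le_sup_left (hT.2 t s h hs2) e)
  · rintro _ ⟨s, hs1, hs2, rfl⟩
    rw [hrk e he s hs2]
    omega
  · intro i hi1 hi2
    exact ⟨e ⊔ T (i - 1), ⟨i - 1, by omega, by omega, rfl⟩, by rw [hrk e he _ (by omega)]; omega⟩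
  · rintro _ ⟨s, hs1, hs2, rfl⟩
    exact (hfT s hs1 hs2).trans le_sup_right
  · rw [Set.disjoint_left]
    rintro _ ⟨s, hs1, hs2, rfl⟩ h
    exact hgood1 s hs2 h
  · rw [Set.disjoint_left]
    rintro _ ⟨s, hs1, hs2, rfl⟩ ⟨W, hW, h | ⟨e', he', h⟩⟩
    · have h1 := hinf e he s hs2
      rw [h, (hpZ l W le_rfl hW).2.1] at h1
      have h2 := rk_atom hR he.1
      rw [← h1, hl] at h2
      omega
    · have h1 := hinf e he s hs2
      rw [h, (hpZ e' W he'.2 hW).2.1] at h1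
      apply hgood2
      calc f ≤ e ⊔ T s := (hfT s hs1 hs2).trans le_sup_right
        _ = e' ⊔ W := h
        _ = e ⊔ W := by rw [h1]
        _ ≤ e ⊔ Z := sup_le_sup_left hW e

theorem gl_end (hrk : StRk) (hfam : StFam) : StEnd := by
  intro L _ _ _ _ r hr
  obtain ⟨rk, hR⟩ := hrk L r hr
  have hinf : {a : L | IsAtom a}.Infinite := by
    intro hfin
    have h1 : Function.Injective (fun x : L => {a : L | IsAtom a ∧ a ≤ x}) := by
      intro x y h
      have hx : sSup {a : L | IsAtom a ∧ a ≤ x} = x := sSup_atoms_le_eq x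
      have hy : sSup {a : L | IsAtom a ∧ a ≤ y} = y := sSup_atoms_le_eq y
      have h' : {a : L | IsAtom a ∧ a ≤ x} = {a : L | IsAtom a ∧ a ≤ y} := h
      rw [← hx, ← hy, h']
    have h2 : (Set.univ : Set L).Finite := by
      refine Set.Finite.of_finite_image (f := fun x : L => {a : L | IsAtom a ∧ a ≤ x}) ?_
        h1.injOn
      refine hfin.finite_subsets.subset ?_
      rintro _ ⟨x, _, rfl⟩
      intro a ha
      exact ha.1
    exact Set.infinite_univ h2
  obtain ⟨c, hc1, hc2⟩ := hfam L rk r hR hinf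
  have hetop : ∀ e : L, IsAtom e → e ≠ ⊤ := by
    intro e he h
    obtain ⟨e', he', hne⟩ := hinf.nontrivial.exists_ne e
    have he'a : IsAtom e' := he'
    have h1 : e' ≤ e := by rw [h]; exact le_top
    rcases he.le_iff.1 h1 with h2 | h2
    · exact he'a.1 h2
    · exact hne h2
  have hr2 : 2 ≤ r := by
    obtain ⟨e, he⟩ := hinf.nonempty
    have hea : IsAtom e := he
    have h1 := hR.mono e ⊤ (lt_top_iff_ne_top.2 (hetop e hea))
    rw [rk_atom hR hea, hR.top] at h1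
    omega
  refine ⟨{m | ∃ e, IsAtom e ∧ m = insert e (c e)}, ?_, ?_, ?_⟩
  · rintro _ ⟨e, he, rfl⟩
    obtain ⟨⟨hc11, hc12, hc13⟩, hc14⟩ := hc1 e he
    refine ⟨?_, ?_, ?_⟩
    · intro x hx
      have hrx : 1 ≤ rk x ∧ rk x < r := by
        rcases Set.mem_insert_iff.1 hx with hx | hx
        · rw [hx, rk_atom hR he]; omega
        · have := hc12 x hx; omega
      constructor
      · intro h; rw [h, hR.bot] at hrx; omega
      · intro h; rw [h, hR.top] at hrx; omega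
    · exact hc11.insert fun x hx _ => Or.inl (hc14 x hx)
    · intro m' hm' hch hsub
      refine Set.Subset.antisymm ?_ hsub
      intro x hx
      have hx1 : 0 < rk x := by
        have := hR.mono ⊥ x (bot_lt_iff_ne_bot.2 (hm' x hx).1)
        rwa [hR.bot] at this
      have hx2 : rk x < r := by
        have := hR.mono x ⊤ (lt_top_iff_ne_top.2 (hm' x hx).2)
        rwa [hR.top] at this
      obtain ⟨y, hy, hyx⟩ : ∃ y ∈ insert e (c e), rk y = rk x := by
        by_cases h1 : rk x = 1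
        · exact ⟨e, Set.mem_insert _ _, by rw [rk_atom hR he, h1]⟩
        · obtain ⟨y, hy, hyr⟩ := hc13 (rk x) (by omega) hx2
          exact ⟨y, Set.mem_insert_of_mem _ hy, hyr⟩
      have hxy : x = y := by
        by_contra hne
        rcases hch hx (hsub hy) hne with h | h
        · exact hne (eq_of_rk hR h hyx.le)
        · exact hne (eq_of_rk hR h hyx.ge).symm
      rw [hxy]; exact hy
  · rintro _ ⟨e, he, rfl⟩ _ ⟨e', he', rfl⟩ hne
    have hee : e ≠ e' := by
      rintro rfl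
      exact hne rfl
    show Disjoint (insert e (c e)) (insert e' (c e'))
    rw [Set.disjoint_left]
    intro x hx hx'
    rcases Set.mem_insert_iff.1 hx with h | h <;> rcases Set.mem_insert_iff.1 hx' with h' | h'
    · exact hee (h.symm.trans h')
    · have := (hc1 e' he').1.2.1 x h'
      rw [h, rk_atom hR he] at this
      omega
    · have := (hc1 e he).1.2.1 x h
      rw [h', rk_atom hR he'] at this
      omega
    · exact Set.disjoint_left.1 (hc2 e e' he he' hee) h h'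
  · intro x hx
    exact ⟨insert x (c x), ⟨x, hx, rfl⟩, Set.mem_insert _ _⟩

end Pool.Agent.W346.GL
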